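import Pool.Agent.Q278.MG6

set_option autoImplicit false

namespace Pool.Agent.Results.MP_030fd4_nt.Full

open Finset

/-- The truncated series `3F2(1/2, -a, a + 1; 1, 1; 1)_{p - 1}`. The rising factorial `(x)_k` is
the value at `x` of Mathlib's `ascPochhammer`. -/
noncomputable def F (p : ℕ) [Fact p.Prime] (a : ℚ_[p]) : ℚ_[p] :=
  ∑ k ∈ range p, (ascPochhammer ℚ_[p] k).eval (1 / 2) * (ascPochhammer ℚ_[p] k).eval (-a) *
    (ascPochhammer ℚ_[p] k).eval (a + 1) / (k.factorial : ℚ_[p]) ^ 3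

/-- `G` is Morita's `p`-adic gamma function: a continuous function on `ℤ_[p]` whose value at a
positive integer `n` is `(-1)^n` times the product of the integers `0 < j < n` prime to `p`. -/
def IsMoritaGamma (p : ℕ) [Fact p.Prime] (G : ℤ_[p] → ℤ_[p]) : Prop :=
  Continuous G ∧ ∀ n : ℕ, 1 ≤ n →
    G n = (-1) ^ n * ∏ j ∈ (Ioo 0 n).filter (fun j => ¬ p ∣ j), (j : ℤ_[p])

/-- For every prime `p ≥ 5`, Morita's gamma function `Γ` exists and is unique, and for every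
`a` in `ℤ_[p]` whose least nonnegative residue `r` modulo `p` is even, with `x = -a/2` and
`y = (a+1)/2` in `ℤ_[p]`, the truncated series is congruent to
`(-1)^((p+1)/2) Γ(x)^2 Γ(y)^2` modulo `p^3`. -/
theorem result :
    ∀ (p : ℕ) [Fact p.Prime], 5 ≤ p →
      ∃ G : ℤ_[p] → ℤ_[p], IsMoritaGamma p G ∧ (∀ G', IsMoritaGamma p G' → G' = G) ∧
        ∀ (a : ℤ_[p]) (r : ℕ), r < p → Even r → (p : ℤ_[p]) ∣ a - r →
          ∃ x y : ℤ_[p], 2 * x = -a ∧ 2 * y = a + 1 ∧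
            ∃ z : ℤ_[p], F p (a : ℚ_[p]) - (-1) ^ ((p + 1) / 2) * ((G x : ℤ_[p]) : ℚ_[p]) ^ 2 *
              ((G y : ℤ_[p]) : ℚ_[p]) ^ 2 = (p : ℚ_[p]) ^ 3 * (z : ℚ_[p]) := by
  intro p hp h5
  obtain ⟨G, hG⟩ := H623R3.SW.exists_morita (p := p) (by omega)
  refine ⟨G, hG, fun G' hG' => H623R3.SW.morita_unique hG' hG, fun a r hr hev har => ?_⟩
  have unit2 : IsUnit (2 : ℤ_[p]) := by
    rw [PadicInt.isUnit_iff]
    refine le_antisymm (PadicInt.norm_le_one _) ?_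
    by_contra hlt
    have h1 := (PadicInt.norm_int_lt_one_iff_dvd (p := p) 2).1 (by push_cast; exact not_le.1 hlt)
    have := Int.le_of_dvd (by norm_num) h1
    omega
  obtain ⟨x, hx⟩ := unit2.dvd (a := -a)
  obtain ⟨y, hy⟩ := unit2.dvd (a := a + 1)
  exact ⟨x, y, hx.symm, hy.symm, Q278.MG.main h5 hG a r hr hev har x y hx.symm hy.symm⟩

end Pool.Agent.Results.MP_030fd4_nt.Full
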